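import Mathlib

namespace Pool.Agent.H.MP_bbed2d_pr

open Finset MeasureTheory ProbabilityTheory
open scoped ENNReal

variable {V : Type} [Fintype V] [DecidableEq V] (G : SimpleGraph V) [DecidableRel G.Adj]

/-- the minimiser of the local energy at `v` -/
noncomputable def upd (p : ℝ) (f : V → ℝ) (v : V) : ℝ :=
  Classical.epsilon fun y : ℝ => ∀ y' : ℝ,
    ∑ w ∈ G.neighborFinset v, |f w - y| ^ p ≤ ∑ w ∈ G.neighborFinset v, |f w - y'| ^ p

/-- the profile after `t` updates along the sequence `ω` -/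
noncomputable def proc (p : ℝ) (f : V → ℝ) (ω : ℕ → V) : ℕ → V → ℝ
  | 0 => f
  | t + 1 => Function.update (proc p f ω t) (ω t) (upd G p (proc p f ω t) (ω t))

/-- the approximation time -/
noncomputable def tau (p : ℝ) (f h : V → ℝ) (ε : ℝ) (ω : ℕ → V) : ℝ≥0∞ :=
  ⨅ (t : ℕ) (_ : ∀ v, |proc G p f ω t v - h v| ≤ ε), (t : ℝ≥0∞)

/-- its expectation for independent uniform choices in `I` -/
noncomputable def ETau (I : Finset V) (p : ℝ) (f h : V → ℝ) (ε : ℝ) : ℝ≥0∞ :=
  letI : MeasurableSpace V := ⊤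
  ∫⁻ ω, tau G p f h ε ω ∂(Measure.infinitePi fun _ : ℕ => uniformOn (I : Set V))

/-- signed power -/
noncomputable def ph (p x : ℝ) : ℝ := |x| ^ (p - 2) * x

theorem upd_eq {p : ℝ} (hp : 1 < p) (f : V → ℝ) (v w0 : V) (h0 : w0 ∈ G.neighborFinset v) :
    ∑ w ∈ G.neighborFinset v, ph p (upd G p f v - f w) = 0 := by
  set g : ℝ → ℝ := fun y => ∑ w ∈ G.neighborFinset v, |f w - y| ^ p with hg
  have hd : ∀ y, HasDerivAt g (∑ w ∈ G.neighborFinset v, p * ph p (y - f w)) y := by
    intro y
    refine HasDerivAt.fun_sum fun w _ => ?_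
    have := (hasDerivAt_abs_rpow (y - f w) hp).comp y ((hasDerivAt_id y).sub_const (f w))
    simp only [mul_one] at this
    have e : (fun y => |f w - y| ^ p) = (fun x => |x| ^ p) ∘ fun x => id x - f w := by
      ext z; simp [abs_sub_comm]
    rw [e, ph, ← mul_assoc]
    exact this
  have hc : Continuous g := continuous_iff_continuousAt.2 fun y => (hd y).continuousAt
  have ht : Filter.Tendsto g (Filter.cocompact ℝ) Filter.atTop := by
    have h1 : Filter.Tendsto (fun y : ℝ => |f w0 - y| ^ p) (Filter.cocompact ℝ) Filter.atTop := by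
      refine (tendsto_rpow_atTop (by linarith)).comp ?_
      exact tendsto_dist_left_cocompact_atTop (f w0)
    refine Filter.tendsto_atTop_mono (fun y => ?_) h1
    exact single_le_sum (f := fun w => |f w - y| ^ p) (fun _ _ => by positivity) h0
  have hex := hc.exists_forall_le ht
  have hs : ∀ y', g (upd G p f v) ≤ g y' := Classical.epsilon_spec hex
  have hm : IsLocalMin g (upd G p f v) := Filter.Eventually.of_forall hs
  have := hm.hasDerivAt_eq_zero (hd _)
  rw [← mul_sum] at this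
  exact (mul_eq_zero.1 this).resolve_left (by linarith)

theorem ph_neg (p x : ℝ) : ph p (-x) = - ph p x := by simp [ph]

theorem ph_pos (p : ℝ) {x : ℝ} (hx : 0 < x) : 0 < ph p x :=
  mul_pos (Real.rpow_pos_of_pos (abs_pos.2 hx.ne') _) hx

theorem ph_nonneg (p : ℝ) {x : ℝ} (hx : 0 ≤ x) : 0 ≤ ph p x := by unfold ph; positivity

theorem ph_mono {p : ℝ} (hp : 2 ≤ p) {x y : ℝ} (h : x ≤ y) : ph p x ≤ ph p y := by
  have key : ∀ a b : ℝ, 0 ≤ a → a ≤ b → ph p a ≤ ph p b := by
    intro a b ha hab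
    unfold ph
    rw [abs_of_nonneg ha, abs_of_nonneg (ha.trans hab)]
    have : 0 ≤ b := ha.trans hab
    gcongr
  rcases le_total 0 x with hx | hx
  · exact key _ _ hx h
  · rcases le_total 0 y with hy | hy
    · have := ph_nonneg p (neg_nonneg.2 hx)
      have := ph_nonneg p hy
      rw [ph_neg] at *
      linarith
    · have := key (-y) (-x) (by linarith) (by linarith)
      rw [ph_neg, ph_neg] at this
      linarith

theorem local_est {p s δ η α β u : ℝ} (hp : 2 ≤ p) (hs : 0 < s) (hδ : 2 * δ ≤ s)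
    (hη : δ ^ (p - 2) ≤ η * (s / 2) ^ (p - 2)) (ha : 0 ≤ α) (ha' : α ≤ δ) (hb : 0 ≤ β)
    (hb' : β ≤ δ) (h : ph p (s + u - α) + (ph p (u - (s + β)) + ph p u) = 0) :
    0 ≤ u ∧ u ≤ (α + β) / 2 ∧ (α + β) / 2 - η * δ ≤ u := by
  rw [show u - (s + β) = -(s + β - u) by ring, ph_neg] at h
  have h1 : 0 ≤ u := by
    by_contra hu
    have a1 := ph_pos p (show 0 < -u by linarith)
    have a2 := ph_mono hp (show s + u - α ≤ s + β - u by linarith)
    rw [ph_neg] at a1
    linarith
  have h2 : u ≤ (α + β) / 2 := by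
    by_contra hu
    have a1 := ph_pos p (show 0 < u by linarith)
    have a2 := ph_mono hp (show s + β - u ≤ s + u - α by linarith)
    linarith
  refine ⟨h1, h2, ?_⟩
  have hδ0 : 0 ≤ δ := ha.trans ha'
  have a1 : ph p u ≤ δ ^ (p - 2) * δ := by
    refine (ph_mono hp (show u ≤ δ by linarith)).trans (le_of_eq ?_)
    rw [ph, abs_of_nonneg hδ0]
  set A := s + u - α with hA
  set B := s + β - u with hB
  have hA0 : s / 2 ≤ A := by linarith
  have hAB : A ≤ B := by linarith
  have a2 : (s / 2) ^ (p - 2) * (B - A) ≤ ph p B - ph p A := by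
    unfold ph
    rw [abs_of_nonneg (by linarith : 0 ≤ A), abs_of_nonneg (by linarith : 0 ≤ B)]
    have b1 : (s / 2) ^ (p - 2) ≤ A ^ (p - 2) := by gcongr
    have b2 : A ^ (p - 2) ≤ B ^ (p - 2) := by gcongr <;> linarith
    have b3 : A ^ (p - 2) * B ≤ B ^ (p - 2) * B := by gcongr; linarith
    have b4 : (s / 2) ^ (p - 2) * (B - A) ≤ A ^ (p - 2) * (B - A) := by gcongr
    linarith
  have h0 : 0 < (s / 2) ^ (p - 2) := by positivity
  have a3 : (s / 2) ^ (p - 2) * (B - A) ≤ (s / 2) ^ (p - 2) * (η * δ) := by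
    have : δ ^ (p - 2) * δ ≤ η * (s / 2) ^ (p - 2) * δ := by gcongr
    linarith
  have a4 := le_of_mul_le_mul_left a3 h0
  have : 0 ≤ η * δ := by linarith
  linarith

theorem proc_shift (p : ℝ) (f : V → ℝ) (ω : ℕ → V) (t : ℕ) :
    proc G p f ω (t + 1)
      = proc G p (Function.update f (ω 0) (upd G p f (ω 0))) (fun j => ω (j + 1)) t := by
  induction t with
  | zero => rfl
  | succ t ih => rw [proc, ih]; rfl

theorem proc_congr (p : ℝ) (f : V → ℝ) {ω ω' : ℕ → V} (t : ℕ) (h : ∀ j < t, ω j = ω' j) :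
    proc G p f ω t = proc G p f ω' t := by
  induction t with
  | zero => rfl
  | succ t ih => rw [proc, proc, ih (fun j hj => h j (by omega)), h t (by omega)]

/-- extension of a finite word -/
def ext {I : Finset V} (d : V) {t : ℕ} (l : Fin t → I) (j : ℕ) : V :=
  if h : j < t then (l ⟨j, h⟩ : V) else d

/-- abstract drift argument -/
theorem drift (p : ℝ) (I : Finset V) (d : V) (Good : (V → ℝ) → Prop) (Φ : (V → ℝ) → ℝ) (c : ℝ)
    (hG : ∀ F, Good F → ∀ v ∈ I, Good (Function.update F v (upd G p F v)))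
    (hΦ : ∀ F, Good F →
      I.card * (Φ F - c) ≤ ∑ v ∈ I, Φ (Function.update F v (upd G p F v))) (t : ℕ) :
    ∀ F, Good F → (I.card : ℝ) ^ t * (Φ F - c * t)
      ≤ ∑ l : Fin t → I, Φ (proc G p F (ext d l) t) := by
  induction t with
  | zero => intro F _; simp [proc]
  | succ t ih =>
    intro F hF
    rw [← (Fin.consEquiv (fun _ : Fin (t + 1) => I)).sum_comp, Fintype.sum_prod_type]
    have : ∀ (v : I) (l : Fin t → I),
        proc G p F (ext d ((Fin.consEquiv (fun _ : Fin (t + 1) => I)) (v, l))) (t + 1)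
          = proc G p (Function.update F v (upd G p F v)) (ext d l) t := by
      intro v l
      rw [proc_shift]
      congr 1
      funext j
      simp only [ext, Fin.consEquiv, Equiv.coe_fn_mk, Nat.add_lt_add_iff_right]
      split_ifs
      · rfl
      · rfl
    simp only [this]
    have h1 : ∑ v : I, (I.card : ℝ) ^ t * (Φ (Function.update F v (upd G p F v)) - c * t)
        ≤ ∑ v : I, ∑ l : Fin t → I,
          Φ (proc G p (Function.update F v (upd G p F v)) (ext d l) t) :=
      sum_le_sum fun v _ => ih _ (hG F hF v v.2)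
    refine le_trans ?_ h1
    rw [← mul_sum, sum_sub_distrib,
      sum_coe_sort I (fun v => Φ (Function.update F v (upd G p F v))), pow_succ, mul_assoc]
    refine mul_le_mul_of_nonneg_left ?_ (by positivity)
    have := hΦ F hF
    simp only [sum_const, card_univ, Fintype.card_coe, nsmul_eq_mul]
    push_cast
    linarith

/-- from counting words to the expectation -/
theorem etau_ge (p : ℝ) (I : Finset V) (hI : I.Nonempty) (f h : V → ℝ) (ε : ℝ) (t : ℕ)
    (A : Finset (Fin t → I)) (hA : I.card ^ t ≤ 2 * A.card)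
    (hτ : ∀ l ∈ A, ∀ ω : ℕ → V, (∀ j : Fin t, ω j = l j) → (t : ℝ≥0∞) ≤ tau G p f h ε ω) :
    (t : ℝ≥0∞) / 2 ≤ ETau G I p f h ε := by
  let _ : MeasurableSpace V := ⊤
  have : IsProbabilityMeasure (uniformOn (I : Set V)) :=
    isProbabilityMeasure_uniformOn I.finite_toSet (by simpa using hI)
  set μ := Measure.infinitePi fun _ : ℕ => uniformOn (I : Set V) with hμ
  obtain ⟨d, -⟩ := hI.exists_mem
  set C : (Fin t → I) → Set (ℕ → V) := fun l => Set.pi (range t) (fun j => {ext d l j}) with hC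
  have hCm : ∀ l, MeasurableSet (C l) := fun l =>
    MeasurableSet.pi (Finset.countable_toSet _) (fun _ _ => trivial)
  have hCμ : ∀ l, μ (C l) = (1 / I.card) ^ t := by
    intro l
    rw [hμ, hC, Measure.infinitePi_pi _ (fun _ _ => measurableSet_singleton _)]
    rw [prod_congr rfl (g := fun _ => (1 / I.card : ℝ≥0∞)), prod_const, card_range]
    intro j hj
    have hj' := mem_range.1 hj
    have := uniformOn_apply_finset (s := I) (t := {ext d l j})
    rw [coe_singleton] at this
    rw [this, inter_singleton_of_mem (by simp [ext, hj'])]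
    simp
  have hCe : ∀ l, ∀ ω ∈ C l, ∀ j : Fin t, ω j = l j := by
    intro l ω hω j
    have := hω j (by simp)
    simpa [ext] using this
  have hd : Set.PairwiseDisjoint (A : Set (Fin t → I)) C := by
    intro l _ l' _ hne
    rw [Function.onFun, Set.disjoint_left]
    intro ω h1 h2
    exact hne (funext fun j => Subtype.ext ((hCe l ω h1 j).symm.trans (hCe l' ω h2 j)))
  have h1 : μ (⋃ l ∈ A, C l) = A.card * (1 / I.card) ^ t := by
    rw [measure_biUnion_finset hd (fun l _ => hCm l)]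
    simp only [hCμ, sum_const, nsmul_eq_mul]
  have h2 : ∫⁻ ω, (⋃ l ∈ A, C l).indicator (fun _ => (t : ℝ≥0∞)) ω ∂μ ≤ ETau G I p f h ε := by
    refine lintegral_mono fun ω => ?_
    by_cases hω : ω ∈ ⋃ l ∈ A, C l
    · rw [Set.indicator_of_mem hω]
      obtain ⟨l, hl, hω⟩ := Set.mem_iUnion₂.1 hω
      exact hτ l hl ω (hCe l ω hω)
    · rw [Set.indicator_of_notMem hω]; exact bot_le
  rw [lintegral_indicator_const (Finset.measurableSet_biUnion _ fun l _ => hCm l), h1] at h2
  refine le_trans ?_ h2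
  rw [div_eq_mul_inv]
  gcongr
  have h0 : (I.card : ℝ≥0∞) ^ t ≠ 0 := pow_ne_zero _ (by simpa using hI.ne_empty)
  have hA' : (I.card : ℝ≥0∞) ^ t ≤ 2 * A.card := by exact_mod_cast hA
  rw [one_div, ← ENNReal.inv_pow, ← div_eq_mul_inv,
    ENNReal.le_div_iff_mul_le (Or.inl h0) (Or.inl (by simp))]
  calc _ ≤ (2 : ℝ≥0∞)⁻¹ * (2 * A.card) := by gcongr
    _ = _ := by rw [← mul_assoc, ENNReal.inv_mul_cancel (by simp) (by simp), one_mul]

end Pool.Agent.H.MP_bbed2d_pr
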