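import Pool.Agent.H.MP_bbed2d_pr.A

namespace Pool.Agent.H.MP_bbed2d_pr

open Finset
open scoped ENNReal

/-- vertices -/
abbrev W (N : ℕ) := Option (Fin (N + 1) × Bool)

/-- generating relation -/
def rel (N : ℕ) : W N → W N → Prop
  | some (i, false), some (j, false) => (i : ℕ) + 1 = j
  | some (i, false), some (j, true) => i = j
  | some (_, true), none => True
  | _, _ => False

/-- the graph -/
def GG (N : ℕ) : SimpleGraph (W N) := SimpleGraph.fromRel (rel N)

noncomputable instance (N : ℕ) : DecidableRel (GG N).Adj := Classical.decRel _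

/-- path vertices -/
def P (N j : ℕ) : W N := some (Fin.ofNat (N + 1) j, false)

/-- pendant vertices -/
def Q (N j : ℕ) : W N := some (Fin.ofNat (N + 1) j, true)

/-- harmonic function -/
noncomputable def hh (N : ℕ) : W N → ℝ
  | none => 0
  | some (i, _) => (i : ℝ) / N

/-- interior -/
def II (N : ℕ) : Finset (W N) := (range (N - 1)).image (fun k => P N (k + 1))

variable {N : ℕ}

theorem val_of {j : ℕ} (h : j ≤ N) : ((Fin.ofNat (N + 1) j : Fin (N + 1)) : ℕ) = j := by
  simp [Nat.mod_eq_of_lt (Nat.lt_succ_of_le h)]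

theorem P_inj {i j : ℕ} (hi : i ≤ N) (hj : j ≤ N) (h : P N i = P N j) : i = j := by
  simp only [P, Option.some.injEq, Prod.mk.injEq, and_true] at h
  rw [← val_of hi, ← val_of hj, h]

theorem hh_P {j : ℕ} (h : j ≤ N) : hh N (P N j) = j / N := by simp only [hh, P, val_of h]

theorem hh_Q {j : ℕ} (h : j ≤ N) : hh N (Q N j) = j / N := by simp only [hh, Q, val_of h]

theorem nbr {k : ℕ} (hk : k + 2 ≤ N) :
    (GG N).neighborFinset (P N (k + 1)) = {P N k, P N (k + 2), Q N (k + 1)} := by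
  ext v
  have e0 := val_of (N := N) (j := k) (by omega)
  have e1 := val_of (N := N) (j := k + 1) (by omega)
  have e2 := val_of (N := N) (j := k + 2) (by omega)
  rw [SimpleGraph.mem_neighborFinset]
  rcases v with _ | ⟨i, _ | _⟩
  · simp [GG, P, Q, rel]
  · simp only [GG, SimpleGraph.fromRel_adj, P, Q, rel, ne_eq,
      Option.some.injEq, Prod.mk.injEq, and_true, mem_insert, mem_singleton, Fin.ext_iff, e0, e1,
      e2, Bool.false_eq_true, and_false, or_false]
    omega
  · simp only [GG, SimpleGraph.fromRel_adj, P, Q, rel, ne_eq,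
      Option.some.injEq, Prod.mk.injEq, and_true, mem_insert, mem_singleton, Fin.ext_iff, e0, e1,
      e2, Bool.false_eq_true, and_false, or_false, Bool.true_eq_false, false_or, not_false_iff,
      true_and]
    omega

theorem sum_nbr {k : ℕ} (hk : k + 2 ≤ N) (g : W N → ℝ) :
    ∑ w ∈ (GG N).neighborFinset (P N (k + 1)), g w
      = g (P N k) + (g (P N (k + 2)) + g (Q N (k + 1))) := by
  rw [nbr hk, sum_insert, sum_insert, sum_singleton]
  · simp [P, Q]
  · simp only [mem_insert, mem_singleton, not_or]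
    exact ⟨fun h => by have := P_inj (by omega) (by omega) h; omega, by simp [P, Q]⟩

theorem mem_II {v : W N} : v ∈ II N ↔ ∃ k, k + 2 ≤ N ∧ v = P N (k + 1) := by
  simp only [II, mem_image, mem_range]
  constructor
  · rintro ⟨k, h, rfl⟩; exact ⟨k, by omega, rfl⟩
  · rintro ⟨k, h, rfl⟩; exact ⟨k, by omega, rfl⟩

theorem sum_II (g : W N → ℝ) : ∑ v ∈ II N, g v = ∑ k ∈ range (N - 1), g (P N (k + 1)) := by
  rw [II, sum_image]
  intro i hi j hj h
  have := mem_range.1 (mem_coe.1 hi)
  have := mem_range.1 (mem_coe.1 hj)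
  have := P_inj (by omega) (by omega) h
  omega

theorem card_II : (II N).card = N - 1 := by
  have := sum_II (N := N) (fun _ => 1)
  simp only [sum_const, nsmul_eq_mul, mul_one, card_range] at this
  exact_mod_cast this

theorem diam_le : (GG N).diam ≤ 4 := by
  have h1 : ∀ v, (GG N).edist v none ≤ 2 := by
    have h2 : ∀ i, (GG N).Adj (some (i, true)) none := fun i => by simp [GG, rel]
    have h3 : ∀ i, (GG N).Adj (some (i, false)) (some (i, true)) := fun i => by simp [GG, rel]
    rintro (_ | ⟨i, _ | _⟩)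
    · simp
    · exact SimpleGraph.edist_le (.cons (h3 i) (.cons (h2 i) .nil))
    · exact (SimpleGraph.edist_le (.cons (h2 i) .nil)).trans (by simp)
  have : (GG N).ediam ≤ 4 := SimpleGraph.ediam_le_of_edist_le fun u v => by
    calc _ ≤ (GG N).edist u none + (GG N).edist none v := SimpleGraph.edist_triangle
      _ ≤ 2 + 2 := add_le_add (h1 u) (SimpleGraph.edist_comm ▸ h1 v)
      _ = 4 := by norm_num
  exact ENat.toNat_le_of_le_coe this

theorem conn : (GG N).Connected := by
  have h1 : ∀ v, (GG N).Reachable v none := by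
    have h2 : ∀ i, (GG N).Adj (some (i, true)) none := fun i => by simp [GG, rel]
    have h3 : ∀ i, (GG N).Adj (some (i, false)) (some (i, true)) := fun i => by simp [GG, rel]
    rintro (_ | ⟨i, _ | _⟩)
    · rfl
    · exact (h3 i).reachable.trans (h2 i).reachable
    · exact (h2 i).reachable
  exact ⟨fun u v => (h1 u).trans (h1 v).symm⟩

theorem edges_le : (GG N).edgeFinset.card ≤ 3 * (N + 1) := by
  set f : Fin (N + 1) × Fin 3 → Sym2 (W N) := fun x =>
    if x.2 = 0 then s(some (x.1, false), P N (x.1 + 1))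
    else if x.2 = 1 then s(some (x.1, false), some (x.1, true)) else s(some (x.1, true), none)
    with hf
  have key : ∀ a b, rel N a b → s(a, b) ∈ univ.image f := by
    rintro (_ | ⟨i, _ | _⟩) (_ | ⟨j, _ | _⟩) h <;> simp only [rel] at h
    · refine mem_image.2 ⟨(i, 0), mem_univ _, ?_⟩
      simp [hf, P, h]
    · exact mem_image.2 ⟨(i, 1), mem_univ _, by simp [hf, h]⟩
    · exact mem_image.2 ⟨(i, 2), mem_univ _, by simp [hf]⟩
  have : (GG N).edgeFinset ⊆ univ.image f := by
    intro e he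
    induction e using Sym2.ind with
    | h a b =>
      rw [SimpleGraph.mem_edgeFinset, SimpleGraph.mem_edgeSet, GG,
        SimpleGraph.fromRel_adj] at he
      rcases he.2 with h | h
      · exact key _ _ h
      · exact Sym2.eq_swap ▸ key _ _ h
  refine (card_le_card this).trans (card_image_le.trans ?_)
  simp [mul_comm]

/-- invariant -/
def Good (N : ℕ) (M : ℝ) (F : W N → ℝ) : Prop :=
  (∀ v ∉ II N, F v = hh N v) ∧ ∀ v, 0 ≤ F v - hh N v ∧ F v - hh N v ≤ M

theorem step_est {p δ η M : ℝ} (hp : 2 ≤ p) (hδ : 2 * δ ≤ 1 / N) (hM : M ≤ δ)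
    (hη : δ ^ (p - 2) ≤ η * (1 / N / 2) ^ (p - 2)) {F : W N → ℝ} (hF : Good N M F) {k : ℕ}
    (hk : k + 2 ≤ N) :
    0 ≤ upd (GG N) p F (P N (k + 1)) - hh N (P N (k + 1)) ∧
    upd (GG N) p F (P N (k + 1)) - hh N (P N (k + 1))
      ≤ ((F (P N k) - hh N (P N k)) + (F (P N (k + 2)) - hh N (P N (k + 2)))) / 2 ∧
    ((F (P N k) - hh N (P N k)) + (F (P N (k + 2)) - hh N (P N (k + 2)))) / 2 - η * δ
      ≤ upd (GG N) p F (P N (k + 1)) - hh N (P N (k + 1)) := by
  have hN : (0 : ℝ) < N := by exact_mod_cast (by omega : 0 < N)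
  have h1 := upd_eq (GG N) (by linarith : 1 < p) F (P N (k + 1)) (P N k) (by rw [nbr hk]; simp)
  rw [sum_nbr hk, hF.1 (Q N (k + 1)) (by simp [mem_II, P, Q])] at h1
  refine local_est (s := 1 / N) hp (by positivity) hδ hη (hF.2 _).1 ((hF.2 _).2.trans hM)
    (hF.2 _).1 ((hF.2 _).2.trans hM) ?_
  rw [hh_Q (by omega)] at h1
  rw [hh_P (by omega), hh_P (by omega), hh_P (by omega)]
  rw [← h1]
  congr 1
  · congr 1; push_cast; ring
  · congr 1
    congr 1; push_cast; ring

theorem good_step {p δ η M : ℝ} (hp : 2 ≤ p) (hδ : 2 * δ ≤ 1 / N) (hM : M ≤ δ)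
    (hη : δ ^ (p - 2) ≤ η * (1 / N / 2) ^ (p - 2)) {F : W N → ℝ} (hF : Good N M F) :
    ∀ v ∈ II N, Good N M (Function.update F v (upd (GG N) p F v)) := by
  intro v hv
  obtain ⟨k, hk, rfl⟩ := mem_II.1 hv
  obtain ⟨h1, h2, -⟩ := step_est hp hδ hM hη hF hk
  refine ⟨fun w hw => ?_, fun w => ?_⟩
  · rw [Function.update_of_ne (by rintro rfl; exact hw hv), hF.1 w hw]
  · by_cases hw : w = P N (k + 1)
    · subst hw
      rw [Function.update_self]
      exact ⟨h1, by linarith [(hF.2 (P N k)).2, (hF.2 (P N (k + 2))).2]⟩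
    · rw [Function.update_of_ne hw]; exact hF.2 w

/-- weights -/
noncomputable def wt (N j : ℕ) : ℝ := j * ((N : ℝ) - j)

/-- potential -/
noncomputable def Phi (N : ℕ) (F : W N → ℝ) : ℝ :=
  ∑ k ∈ range (N - 1), wt N (k + 1) * (F (P N (k + 1)) - hh N (P N (k + 1)))

theorem wt_nonneg {j : ℕ} (h : j ≤ N) : 0 ≤ wt N j := by
  have : (j : ℝ) ≤ N := by exact_mod_cast h
  exact mul_nonneg (by positivity) (by linarith)

theorem Phi_upd (F : W N → ℝ) {k : ℕ} (hk : k + 2 ≤ N) (y : ℝ) :
    Phi N (Function.update F (P N (k + 1)) y)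
      = Phi N F + wt N (k + 1) * (y - F (P N (k + 1))) := by
  have hk' : k ∈ range (N - 1) := mem_range.2 (by omega)
  rw [Phi, Phi, ← add_sum_erase _ _ hk', ← add_sum_erase _ _ hk', Function.update_self,
    sum_congr rfl (g := fun j => wt N (j + 1) * (F (P N (j + 1)) - hh N (P N (j + 1))))]
  · ring
  · intro j hj
    obtain ⟨h1, h2⟩ := mem_erase.1 hj
    have := mem_range.1 h2
    rw [Function.update_of_ne]
    intro h
    have := P_inj (by omega) (by omega) h
    omega

theorem Phi_drift {p δ : ℝ} (hN : 2 ≤ N) (hp : 2 ≤ p) (hδ : 2 * δ ≤ 1 / N)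
    (hη : δ ^ (p - 2) ≤ (1 / N ^ 2) * (1 / N / 2) ^ (p - 2)) {F : W N → ℝ} (hF : Good N δ F) :
    (II N).card * (Phi N F - 2 * δ)
      ≤ ∑ v ∈ II N, Phi N (Function.update F v (upd (GG N) p F v)) := by
  set u : ℕ → ℝ := fun j => F (P N j) - hh N (P N j) with hu
  have hδ0 : 0 ≤ δ := (hF.2 none).1.trans (hF.2 none).2
  have hN0 : (0 : ℝ) < N := by exact_mod_cast (by omega : 0 < N)
  have h1 : ∀ k ∈ range (N - 1), Phi N F - 2 * δ + ((wt N (k + 1) * u k - u (k + 1) * wt N k)
      - (wt N (k + 1 + 1) * u (k + 1) - u (k + 1 + 1) * wt N (k + 1))) / 2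
      ≤ Phi N (Function.update F (P N (k + 1)) (upd (GG N) p F (P N (k + 1)))) := by
    intro k hk
    have hk' : k + 2 ≤ N := by have := mem_range.1 hk; omega
    obtain ⟨-, -, h3⟩ := step_est hp hδ le_rfl hη hF hk'
    rw [Phi_upd F hk']
    have w0 := wt_nonneg (N := N) (j := k + 1) (by omega)
    have w1 : wt N (k + 1) * (1 / N ^ 2 * δ) ≤ δ := by
      have : wt N (k + 1) ≤ N ^ 2 := by
        unfold wt; nlinarith [sq_nonneg ((N : ℝ) - ((k + 1 : ℕ) : ℝ)), sq_nonneg (N : ℝ),
          sq_nonneg (((k + 1 : ℕ) : ℝ))]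
      calc _ ≤ N ^ 2 * (1 / N ^ 2 * δ) := by gcongr
        _ = δ := by field_simp
    have w2 : wt N k + wt N (k + 1 + 1) = 2 * wt N (k + 1) - 2 := by
      unfold wt; push_cast; ring
    have w3 := mul_le_mul_of_nonneg_left h3 w0
    have w4 : u (k + 1) ≤ δ := (hF.2 _).2
    have w5 : u (k + 1) * (wt N k + wt N (k + 1 + 1)) = u (k + 1) * (2 * wt N (k + 1) - 2) := by
      rw [w2]
    simp only [hu] at w4 w5 ⊢
    linarith
  rw [sum_II]
  refine le_trans (le_of_eq ?_) (sum_le_sum h1)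
  rw [sum_add_distrib, ← sum_div, sum_range_sub' (fun k => wt N (k + 1) * u k - u (k + 1) * wt N k),
    card_II]
  have a0 : u 0 = 0 := by
    simp only [hu]
    rw [hF.1, sub_self]
    rw [mem_II]
    rintro ⟨k, hk, h⟩
    have := P_inj (by omega) (by omega) h
    omega
  have a1 : u (N - 1 + 1) = 0 := by
    simp only [hu]
    rw [hF.1, sub_self]
    rw [mem_II]
    rintro ⟨k, hk, h⟩
    have := P_inj (by omega) (by omega) h
    omega
  have a2 : wt N (N - 1 + 1) = 0 := by rw [Nat.sub_add_cancel (by omega)]; simp [wt]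
  rw [a0, a1, a2]
  simp [wt]
  ring

theorem Phi_le {M : ℝ} {F : W N → ℝ} (hF : Good N M F) :
    Phi N F ≤ M * ∑ k ∈ range (N - 1), wt N (k + 1) := by
  rw [Phi, mul_sum]
  refine sum_le_sum fun k hk => ?_
  have := mem_range.1 hk
  rw [mul_comm M]
  exact mul_le_mul_of_nonneg_left (hF.2 _).2 (wt_nonneg (by omega))

theorem sum_wt (n : ℕ) (x : ℝ) : ∑ k ∈ range n, ((k + 1 : ℕ) : ℝ) * (x - (k + 1 : ℕ))
    = x * (n * (n + 1) / 2) - n * (n + 1) * (2 * n + 1) / 6 := by
  induction n with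
  | zero => simp
  | succ n ih => rw [sum_range_succ, ih]; push_cast; ring

/-- start profile -/
noncomputable def f0 (N : ℕ) (δ : ℝ) (v : W N) : ℝ := if v ∈ II N then hh N v + δ else hh N v

theorem main {p δ : ℝ} (hN : 2 ≤ N) (hp : 2 ≤ p) (hδ0 : 0 < δ) (hδ : 2 * δ ≤ 1 / N)
    (hη : δ ^ (p - 2) ≤ (1 / N ^ 2) * (1 / N / 2) ^ (p - 2)) (t : ℕ)
    (ht : 48 * (t : ℝ) ≤ N * (N ^ 2 - 1)) :
    (t : ℝ≥0∞) / 2 ≤ ETau (GG N) (II N) p (f0 N δ) (hh N) (δ / 2) := by
  classical
  set S := ∑ k ∈ range (N - 1), wt N (k + 1) with hS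
  have hS' : S = N * (N ^ 2 - 1) / 6 := by
    rw [hS]
    unfold wt
    rw [sum_wt, Nat.cast_sub (by omega)]
    push_cast; ring
  have hg0 : Good N δ (f0 N δ) := by
    refine ⟨fun v hv => by simp [f0, hv], fun v => ?_⟩
    unfold f0
    split_ifs <;> constructor <;> linarith
  have hP0 : Phi N (f0 N δ) = δ * S := by
    rw [Phi, hS, mul_sum]
    refine sum_congr rfl fun k hk => ?_
    have := mem_range.1 hk
    rw [f0, if_pos (mem_II.2 ⟨k, by omega, rfl⟩)]
    ring
  have hd := drift (GG N) p (II N) none (Good N δ) (Phi N) (2 * δ)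
    (fun F hF => good_step hp hδ le_rfl hη hF) (fun F hF => Phi_drift hN hp hδ hη hF) t _ hg0
  have inv : ∀ (M : ℝ), M ≤ δ → ∀ (ω : ℕ → W N) (s t : ℕ), s ≤ t → (∀ j < t, ω j ∈ II N) →
      Good N M (proc (GG N) p (f0 N δ) ω s) → Good N M (proc (GG N) p (f0 N δ) ω t) := by
    intro M hM ω s t hst
    induction t, hst using Nat.le_induction with
    | base => exact fun _ h => h
    | succ t hst ih =>
      intro h1 h2
      exact good_step hp hδ hM hη (ih (fun j hj => h1 j (by omega)) h2) _ (h1 t (by omega))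
  have hext : ∀ l : Fin t → II N, ∀ j < t, ext none l j ∈ II N := fun l j hj => by
    simp [ext, hj]
  set A : Finset (Fin t → II N) :=
    {l | δ / 2 * S < Phi N (proc (GG N) p (f0 N δ) (ext none l) t)} with hA
  have hS0 : 0 < S := by
    have : (2 : ℝ) ≤ N := by exact_mod_cast hN
    rw [hS']
    have : (0 : ℝ) < N ^ 2 - 1 := by nlinarith
    positivity
  refine etau_ge (GG N) p (II N) (card_pos.1 (by rw [card_II]; omega)) _ _ _ t A ?_ ?_
  · have h1 : ∑ l : Fin t → II N, Phi N (proc (GG N) p (f0 N δ) (ext none l) t)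
        ≤ ∑ l : Fin t → II N, (δ / 2 * S + if l ∈ A then δ / 2 * S else 0) := by
      refine sum_le_sum fun l _ => ?_
      split_ifs with h
      · have := Phi_le (inv δ le_rfl (ext none l) 0 t (Nat.zero_le _) (hext l) hg0)
        linarith
      · simp only [hA, mem_filter, mem_univ, true_and, not_lt] at h
        linarith
    rw [sum_add_distrib, ← sum_filter, filter_mem_eq_inter, univ_inter] at h1
    simp only [sum_const, card_univ, Fintype.card_pi, Fintype.card_coe, prod_const,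
      Fintype.card_fin, nsmul_eq_mul, Nat.cast_pow] at h1
    rw [hP0] at hd
    have h2 : (0 : ℝ) ≤ ((II N).card : ℝ) ^ t := by positivity
    have h3 : ((II N).card : ℝ) ^ t * (δ * S * (3 / 4)) ≤ ((II N).card : ℝ) ^ t
        * (δ * S - 2 * δ * t) := by
      gcongr
      have : 8 * (t : ℝ) ≤ S := by linarith
      nlinarith
    have h4 : (δ * S) * ((II N).card : ℝ) ^ t ≤ (δ * S) * (2 * A.card) := by linarith
    exact_mod_cast le_of_mul_le_mul_left h4 (by positivity)
  · intro l hl ω hω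
    have e : ∀ j < t, ω j = ext none l j := fun j hj => by simpa [ext, hj] using hω ⟨j, hj⟩
    refine le_iInf₂ fun s hs => ?_
    by_contra hlt
    have hst : s ≤ t := by
      have : (s : ℝ≥0∞) < t := not_le.1 hlt
      exact_mod_cast this.le
    have hω' : ∀ j < t, ω j ∈ II N := fun j hj => e j hj ▸ hext l j hj
    have g1 := inv δ le_rfl ω 0 s (Nat.zero_le _) (fun j hj => hω' j (by omega)) hg0
    have g2 : Good N (δ / 2) (proc (GG N) p (f0 N δ) ω s) :=
      ⟨g1.1, fun v => ⟨(g1.2 v).1, (le_abs_self _).trans (hs v)⟩⟩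
    have g3 := Phi_le (inv (δ / 2) (by linarith) ω s t hst hω' g2)
    rw [proc_congr _ p _ t e] at g3
    simp only [hA, mem_filter, mem_univ, true_and] at hl
    linarith

end Pool.Agent.H.MP_bbed2d_pr
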